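import Pool.Agent.RS.StmtsF

/-!
# Squad RS, DSM: detection of poles of sums
-/

set_option autoImplicit false

open MvPolynomial

namespace Pool.Agent.RS.H53

/-- DSM -/
theorem dsm (fac : FacStmt) (det : DetStmt) (nmt : NmtStmt) : DsmStmt := by
  intro E _ ι _ _ a b q j D hb hdeg hq hprime hj hpole
  choose a₁ b₁ h1 h2 h3 h4 h5 h6 h7 using fun t =>
    fac E q (a t) (b t) D hprime (hb t) hq (hdeg t).1 (hdeg t).2
  have hqi : io E q ≠ 0 := (map_ne_zero_iff _ io_injective).2 hprime.ne_zero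
  have hbi : ∀ t, io E (b t) ≠ 0 := fun t => (map_ne_zero_iff _ io_injective).2 (hb t)
  have hb1i : ∀ t, io E (b₁ t) ≠ 0 := fun t => (map_ne_zero_iff _ io_injective).2 (h4 t)
  have hterm : ∀ t, io E (a t) / io E (b t) =
      io E (a₁ t) / io E (b₁ t) / io E q ^ (D + 1) := by
    intro t
    have h8 := congrArg (io E) (h6 t)
    rw [map_mul, map_mul, map_mul, map_pow] at h8
    rw [div_div, div_eq_div_iff (hbi t) (mul_ne_zero (hb1i t) (pow_ne_zero _ hqi)), h8]
    ring
  have htot : total a b = io E (numer a₁ b₁) / (io E q ^ (D + 1) * io E (∏ t, b₁ t)) := by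
    unfold total
    rw [Finset.sum_congr rfl fun t _ => hterm t, ← Finset.sum_div,
      (nmt ι).1 _ _ (io E) a₁ b₁ hb1i, div_div, mul_comm (io E (∏ t, b₁ t))]
  have hg : ¬ q ∣ ∏ t, b₁ t := by
    intro h8
    obtain ⟨t, -, ht⟩ := (Prime.dvd_finsetProd_iff hprime b₁).1 h8
    exact h3 t ht
  by_contra hcon
  push Not at hcon
  apply hpole
  rw [htot]
  refine det E j q (numer a₁ b₁) (∏ t, b₁ t) (D + 1) hprime hj hg (Nat.succ_pos D) ?_
  intro c hc
  rw [← htot]
  exact hcon c hc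

end Pool.Agent.RS.H53
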