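import Pool.Agent.RS.StmtsT

/-!
# Squad RS, PFR: partial fractions over a domain
-/

set_option autoImplicit false

open Polynomial

namespace Pool.Agent.RS.H53

/-- A denominator of one polynomial. -/
theorem den1 {R : Type} [CommRing R] [IsDomain R] (p : (FractionRing R)[X]) :
    ∃ f : R, f ≠ 0 ∧ ∃ p' : R[X], p'.map (algebraMap R (FractionRing R)) =
      C (algebraMap R (FractionRing R) f) * p := by
  obtain ⟨b, hb0, hb⟩ := IsLocalization.integerNormalization_spec (nonZeroDivisors R)
    (S := FractionRing R) p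
  refine ⟨b, nonZeroDivisors.ne_zero hb0, _, hb.trans ?_⟩
  rw [← Polynomial.smul_eq_C_mul, algebraMap_smul]

/-- A multiple of a denominator is a denominator. -/
theorem den_mul {R : Type} [CommRing R] [IsDomain R] {p : (FractionRing R)[X]} {f : R} (g : R)
    (h : ∃ p' : R[X], p'.map (algebraMap R (FractionRing R)) =
      C (algebraMap R (FractionRing R) f) * p) :
    ∃ p' : R[X], p'.map (algebraMap R (FractionRing R)) =
      C (algebraMap R (FractionRing R) (g * f)) * p := by
  obtain ⟨p', hp⟩ := h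
  refine ⟨C g * p', ?_⟩
  rw [Polynomial.map_mul, Polynomial.map_C, hp, map_mul, C_mul, mul_assoc]

/-- A common denominator of a finite family. -/
theorem den_all {R : Type} [CommRing R] [IsDomain R] {n : ℕ} (p : Fin n → (FractionRing R)[X]) :
    ∃ f : R, f ≠ 0 ∧ ∀ i, ∃ p' : R[X], p'.map (algebraMap R (FractionRing R)) =
      C (algebraMap R (FractionRing R) f) * p i := by
  classical
  choose f hf hp using fun i => den1 (p i)
  refine ⟨∏ i, f i, Finset.prod_ne_zero_iff.2 fun i _ => hf i, fun i => ?_⟩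
  have h := den_mul (∏ j ∈ Finset.univ.erase i, f j) (hp i)
  rw [Finset.prod_erase_mul Finset.univ f (Finset.mem_univ i)] at h
  exact h

/-- PFR -/
theorem pfr (pff : PffStmt) : PfrStmt := by
  intro R _ _ Q b hQ hb
  have hinj : Function.Injective (algebraMap R (FractionRing R)) := IsFractionRing.injective _ _
  have hmi : Function.Injective (Polynomial.map (algebraMap R (FractionRing R))) :=
    Polynomial.map_injective _ hinj
  obtain ⟨M, U, c₀, c₁, ⟨A, B, hAB⟩, hU, h⟩ := pff (FractionRing R)
    (Q.map (algebraMap R (FractionRing R))) (b.map (algebraMap R (FractionRing R)))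
    ((Polynomial.map_ne_zero_iff hinj).2 hQ) ((Polynomial.map_ne_zero_iff hinj).2 hb)
  obtain ⟨f, hf, hp⟩ := den_all ![U, c₀, c₁, A, B]
  obtain ⟨u, hu⟩ := hp 0
  obtain ⟨c, hc⟩ := hp 1
  obtain ⟨c', hc'⟩ := hp 2
  obtain ⟨a, ha⟩ := hp 3
  obtain ⟨d, hd⟩ := hp 4
  change _ = _ * U at hu
  change _ = _ * c₀ at hc
  change _ = _ * c₁ at hc'
  change _ = _ * A at ha
  change _ = _ * B at hd
  refine ⟨M, u, c, C f * c', C f * d, a, f ^ 2, f ^ 2, ?_, pow_ne_zero 2 hf, pow_ne_zero 2 hf,
    ?_, ?_⟩
  · rintro rfl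
    rw [Polynomial.map_zero] at hu
    refine mul_ne_zero ?_ hU hu.symm
    exact C_ne_zero.2 ((map_ne_zero_iff _ hinj).2 hf)
  · apply hmi
    rw [Polynomial.map_add, Polynomial.map_mul, Polynomial.map_mul, Polynomial.map_mul, ha, hu, hd,
      Polynomial.map_C, Polynomial.map_C, map_pow, C_pow]
    linear_combination C (algebraMap R (FractionRing R) f) ^ 2 * hAB
  · apply hmi
    rw [Polynomial.map_mul, Polynomial.map_mul, Polynomial.map_mul, Polynomial.map_add,
      Polynomial.map_mul, Polynomial.map_mul, Polynomial.map_mul, Polynomial.map_mul,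
      Polynomial.map_pow, hu, hc, hc', Polynomial.map_C, Polynomial.map_C, map_pow, C_pow]
    linear_combination C (algebraMap R (FractionRing R) f) ^ 3 * h

end Pool.Agent.RS.H53
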